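import Mathlib

namespace Pool.Agent.Results.MP_afd3e6_co.ContractingFixedPoint

/-- The matrix of the morphism `h` of the free monoid on `Fin 3` (`h y` is the image of the
letter `y`): the entry in row `x`, column `y` is the number of occurrences of `x` in `h y`. -/
def incidence (h : Fin 3 → List (Fin 3)) : Matrix (Fin 3) (Fin 3) ℤ :=
  fun x y => ((h y).count x : ℤ)

open Classical in
/-- The number of complex eigenvalues of modulus smaller than one, counted with algebraic
multiplicity. -/
noncomputable def smallEigenvalues (M : Matrix (Fin 3) (Fin 3) ℤ) : ℕ :=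
  (M.map (Int.cast : ℤ → ℂ)).charpoly.roots.countP (fun z => ‖z‖ < 1)

/-- The image of a finite word under the morphism `h`. -/
def image (h : Fin 3 → List (Fin 3)) (u : List (Fin 3)) : List (Fin 3) := u.flatMap h

/-- The factor of length `l` of the infinite word `w` starting at position `i`. -/
def factor (w : ℕ → Fin 3) (i l : ℕ) : List (Fin 3) := (List.range l).map (fun k => w (i + k))

/-- `h(w) = w` for the infinite word `w`: the image of every prefix of `w` is a prefix of `w`,
and these images are arbitrarily long. -/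
def IsFixedPoint (h : Fin 3 → List (Fin 3)) (w : ℕ → Fin 3) : Prop :=
  (∀ n, image h (factor w 0 n) = factor w 0 (image h (factor w 0 n)).length) ∧
  ∀ m, ∃ n, m ≤ (image h (factor w 0 n)).length

/-- `u v t` is an abelian cube. -/
def IsAbelianCube (u v t : List (Fin 3)) : Prop :=
  u ≠ [] ∧ v ≠ [] ∧ t ≠ [] ∧ ∀ x, u.count x = v.count x ∧ v.count x = t.count x

/-- No factor of the infinite word `w` is an abelian cube. -/
def AbelianCubeFree (w : ℕ → Fin 3) : Prop :=
  ∀ i a b c, ¬ IsAbelianCube (factor w i a) (factor w (i + a) b) (factor w (i + a + b) c)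

def g0 : List (Fin 3) := [0, 0, 2, 0, 0, 1, 2, 2, 0, 0, 2, 0, 0, 1, 0, 0, 2, 0, 0, 2, 0, 0, 1, 0, 1, 0, 2, 2, 0, 2, 2, 1, 1, 0, 0, 1, 0, 0, 2, 0, 1, 0, 0, 2, 0, 2, 2, 1, 2, 0, 2, 2, 0, 0, 1, 0, 0, 2, 0, 2, 0, 0, 1, 0, 2, 1, 2, 0, 1, 0, 0, 1, 2, 2, 1, 1, 0, 1, 1]
def g1 : List (Fin 3) := [2, 1, 1, 0, 1, 2, 1, 1, 2, 2, 0, 1, 2, 1, 0, 1, 1, 0, 1, 1, 0, 2, 1, 1, 2, 1, 1, 0, 1, 1, 2, 1, 1, 2, 1, 0, 2, 2, 1, 1, 2, 1, 0, 2, 2, 1, 1, 2, 1, 1, 0, 1, 0, 2, 1, 2, 0, 1, 0, 0, 1, 2, 2, 1, 1, 0, 1, 1]
def g2 : List (Fin 3) := [0, 0, 2, 0, 0, 1, 2, 2, 0, 0, 2, 0, 0, 1, 0, 0, 2, 0, 0, 2, 0, 0, 1, 0, 1, 0, 2, 2, 0, 2, 2, 1, 1, 0, 0, 1, 0, 0, 2, 0, 1, 0, 0, 2, 0, 2, 2, 1, 2, 0, 0, 1, 0, 0, 1, 1, 2, 2, 0, 1, 2, 1, 0, 1, 1, 0, 1, 1, 0, 2, 1, 1, 2, 1, 1, 0, 1, 1, 2, 1, 1, 2, 1, 0, 2, 2, 1, 1, 2, 1, 0, 2, 2, 1, 1, 2, 1, 1, 0, 1, 0, 2, 1, 2, 0, 1, 0, 0, 1, 2, 2, 1, 1, 0, 1, 1]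
def mask : ℕ := 3966180083124211048772014529401374688703041328008416247578738073562839308361480248676270843240983248805803892610189591565039339624584323577443913957516939285986578341909588728377564243471526720668636706576334206720912468526071219165153115734495457125157184507512437442860019907440500864369079433969068358377598023911141545623896759277365242997005132362808898042765533893420710313447450945546863801935554191189094116717234280653331243415758469558995697298368142598774214156743708192103725372826552591358478679593905887677255809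
def classes : List ℕ := [0, 7, 12, 31, 32, 38, 46, 56, 69, 73, 93, 99, 112, 118, 152, 208, 211, 217, 222, 231, 278, 288, 307, 313, 314, 316, 317, 340, 346, 374, 379, 396, 400, 401, 425, 436, 438, 470, 475, 493, 495, 509, 518, 519, 532, 536, 576, 617, 622, 632, 671, 674, 678, 703, 716, 770, 771, 784, 796, 800, 801, 803, 824, 888, 895, 899, 903, 909, 933, 936, 938, 956, 960, 976, 981, 982, 985, 986, 989, 995, 1018, 1046, 1051, 1074, 1078, 1085, 1095, 1103, 1110, 1134, 1165, 1201, 1203, 1233, 1247, 1263, 1287, 1288, 1289, 1309, 1333, 1362, 1366, 1381, 1386, 1388, 1399, 1418, 1419, 1423, 1439, 1443, 1468, 1503, 1509, 1514, 1558, 1565, 1567, 1610, 1633, 1654, 1657, 1661, 1663, 1664, 1666, 1667, 1688, 1710, 1746]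
def table : List (ℕ × (Bool × (ℕ × ℕ × ℕ))) := [(0, (true, (0, 0, 0))), (7, (true, (21, 7, 10))), (12, (true, (28, 9, 17))), (31, (false, (9, 22, 12))), (32, (false, (6, 12, 7))), (38, (false, (6, 11, 5))), (46, (true, (18, 6, 10))), (56, (true, (6, 1, 3))), (69, (true, (27, 9, 15))), (73, (true, (15, 3, 6))), (93, (false, (13, 31, 17))), (99, (false, (13, 30, 15))), (112, (true, (12, 2, 6))), (118, (false, (8, 19, 12))), (152, (true, (2, 0, 1))), (208, (true, (8, 1, 4))), (211, (false, (7, 15, 10))), (217, (false, (7, 14, 8))), (222, (true, (22, 8, 11))), (231, (true, (17, 4, 9))), (278, (true, (0, 2, 1))), (288, (true, (16, 4, 7))), (307, (false, (1, 5, 2))), (313, (false, (1, 4, 0))), (314, (false, (12, 29, 14))), (316, (false, (6, 9, 4))), (317, (true, (25, 8, 14))), (340, (false, (4, 7, 4))), (346, (false, (4, 6, 2))), (374, (true, (24, 8, 12))), (379, (true, (31, 10, 19))), (396, (false, (8, 17, 11))), (400, (false, (0, 1, 0))), (401, (false, (11, 26, 14))), (425, (false, (9, 24,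 14))), (436, (true, (30, 10, 17))), (438, (false, (6, 12, 5))), (470, (true, (20, 7, 10))), (475, (true, (27, 9, 17))), (493, (false, (13, 32, 17))), (495, (false, (7, 12, 7))), (509, (true, (17, 6, 10))), (518, (false, (8, 20, 12))), (519, (true, (5, 1, 3))), (532, (true, (26, 9, 15))), (536, (true, (14, 3, 6))), (576, (true, (4, 1, 1))), (617, (false, (7, 15, 8))), (622, (true, (22, 7, 11))), (632, (true, (10, 2, 4))), (671, (true, (7, 1, 4))), (674, (false, (8, 15, 10))), (678, (true, (0, 1, 1))), (703, (false, (9, 22, 13))), (716, (false, (6, 10, 4))), (770, (false, (2, 5, 2))), (771, (false, (13, 30, 16))), (784, (true, (12, 2, 5))), (796, (false, (8, 18, 11))), (800, (false, (0, 2, 0))), (801, (false, (11, 27, 14))), (803, (false, (5, 7, 4))), (824, (true, (2, 0, 0))), (888, (false, (10, 24, 14))), (895, (false, (7, 13, 7))), (899, (true, (29, 10, 17))), (903, (true, (17, 4, 8))), (909, (true, (17, 5, 10))), (933, (true, (19, 7, 10))), (936, (true, (14, 2, 6))), (938, (true, (26,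 9, 17))), (956, (true, (28, 10, 15))), (960, (true, (16, 4, 6))), (976, (true, (4, 0, 1))), (981, (false, (9, 20, 12))), (982, (true, (4, 1, 3))), (985, (false, (1, 4, 1))), (986, (false, (12, 29, 15))), (989, (true, (25, 8, 13))), (995, (true, (25, 9, 15))), (1018, (false, (4, 6, 3))), (1046, (true, (24, 8, 11))), (1051, (true, (31, 10, 18))), (1074, (false, (8, 16, 10))), (1078, (true, (0, 0, 1))), (1085, (true, (21, 7, 11))), (1095, (true, (9, 2, 4))), (1103, (false, (9, 23, 13))), (1110, (false, (6, 12, 6))), (1134, (true, (6, 1, 4))), (1165, (true, (1, 3, 1))), (1201, (false, (11, 28, 14))), (1203, (false, (5, 8, 4))), (1233, (false, (3, 5, 2))), (1247, (true, (11, 2, 5))), (1263, (false, (1, 2, 0))), (1287, (true, (1, 0, 0))), (1288, (false, (10, 25, 14))), (1289, (false, (7, 15, 9))), (1309, (true, (17, 4, 10))), (1333, (true, (19, 6, 10))), (1362, (true, (28, 10, 17))), (1366, (true, (16, 4, 8))), (1381, (false, (9, 21, 12))), (1386, (false, (12, 30, 15))), (1388, (false, (6,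 10, 5))), (1399, (true, (13, 2, 6))), (1418, (false, (4, 7, 3))), (1419, (true, (27, 10, 15))), (1423, (true, (15, 4, 6))), (1439, (true, (3, 0, 1))), (1443, (false, (13, 30, 17))), (1468, (false, (8, 18, 12))), (1503, (false, (9, 24, 13))), (1509, (true, (23, 8, 11))), (1514, (true, (30, 10, 18))), (1558, (true, (8, 2, 4))), (1565, (true, (1, 2, 1))), (1567, (false, (7, 13, 8))), (1610, (true, (26, 9, 16))), (1633, (false, (3, 6, 2))), (1654, (true, (4, 1, 2))), (1657, (false, (1, 4, 2))), (1661, (true, (25, 8, 12))), (1663, (false, (1, 3, 0))), (1664, (false, (12, 28, 14))), (1666, (false, (6, 8, 4))), (1667, (true, (25, 9, 14))), (1688, (false, (10, 26, 14))), (1710, (true, (10, 2, 5))), (1746, (false, (8, 16, 11)))]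

theorem charpoly_three (M : Matrix (Fin 3) (Fin 3) ℤ) (hM : M = !![38, 14, 42; 18, 35, 42; 23, 19, 32]) :
    (M.map (Int.cast : ℤ → ℂ)).charpoly =
      Polynomial.X ^ 3 - Polynomial.C 105 * Polynomial.X ^ 2 + Polynomial.C 1650 * Polynomial.X
        + Polynomial.C 1750 := by
  subst hM
  rw [Matrix.charpoly, Matrix.det_fin_three]
  simp [Matrix.map_apply]
  simp only [map_ofNat]
  ring

theorem cubic_roots (a b c : ℝ) (h2 : a + b + c = 105) (h1 : a * b + a * c + b * c = 1650)
    (h0 : a * b * c = -1750) :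
    (Polynomial.X ^ 3 - Polynomial.C 105 * Polynomial.X ^ 2 + Polynomial.C 1650 * Polynomial.X
        + Polynomial.C 1750 : Polynomial ℂ) =
    (({(a : ℂ), (b : ℂ), (c : ℂ)} : Multiset ℂ).map (fun z => Polynomial.X - Polynomial.C z)).prod := by
  have e2 : (105 : ℂ) = a + b + c := by exact_mod_cast h2.symm
  have e1 : (1650 : ℂ) = a * b + a * c + b * c := by exact_mod_cast h1.symm
  have e0 : (1750 : ℂ) = -(a * b * c) := by
    have : ((-(a * b * c) : ℝ) : ℂ) = 1750 := by rw [h0]; norm_num
    rw [← this]; push_cast; ring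
  rw [e2, e1, e0]
  simp [Polynomial.C_add, Polynomial.C_mul]
  ring

/-- The cubic `x ^ 3 - 105 x ^ 2 + 1650 x + 1750` has three real roots, one in `(-1, 0)`. -/
theorem exists_roots : ∃ a b c : ℝ, -1 < a ∧ a < 0 ∧ 20 < b ∧ b < 21 ∧ 85 < c ∧
    a + b + c = 105 ∧ a * b + a * c + b * c = 1650 ∧ a * b * c = -1750 := by
  have hc : Continuous (fun x : ℝ => x ^ 3 - 105 * x ^ 2 + 1650 * x + 1750) := by fun_prop
  obtain ⟨a, ha, ha'⟩ : ∃ a ∈ Set.Ioo (-1 : ℝ) 0, a ^ 3 - 105 * a ^ 2 + 1650 * a + 1750 = 0 := by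
    have := intermediate_value_Ioo (a := (-1 : ℝ)) (b := 0) (by norm_num) hc.continuousOn
    have h0 : (0 : ℝ) ∈ Set.Ioo ((-1 : ℝ) ^ 3 - 105 * (-1) ^ 2 + 1650 * (-1) + 1750)
        ((0 : ℝ) ^ 3 - 105 * 0 ^ 2 + 1650 * 0 + 1750) := by constructor <;> norm_num
    obtain ⟨a, h1, h2⟩ := this h0
    exact ⟨a, h1, h2⟩
  obtain ⟨b, hb, hb'⟩ : ∃ b ∈ Set.Ioo (20 : ℝ) 21, b ^ 3 - 105 * b ^ 2 + 1650 * b + 1750 = 0 := by
    have := intermediate_value_Ioo' (a := (20 : ℝ)) (b := 21) (by norm_num) hc.continuousOn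
    have h0 : (0 : ℝ) ∈ Set.Ioo ((21 : ℝ) ^ 3 - 105 * 21 ^ 2 + 1650 * 21 + 1750)
        ((20 : ℝ) ^ 3 - 105 * 20 ^ 2 + 1650 * 20 + 1750) := by constructor <;> norm_num
    obtain ⟨b, h1, h2⟩ := this h0
    exact ⟨b, h1, h2⟩
  obtain ⟨c, hc1, hc'⟩ : ∃ c ∈ Set.Ioo (85 : ℝ) 86, c ^ 3 - 105 * c ^ 2 + 1650 * c + 1750 = 0 := by
    have := intermediate_value_Ioo (a := (85 : ℝ)) (b := 86) (by norm_num) hc.continuousOn
    have h0 : (0 : ℝ) ∈ Set.Ioo ((85 : ℝ) ^ 3 - 105 * 85 ^ 2 + 1650 * 85 + 1750)
        ((86 : ℝ) ^ 3 - 105 * 86 ^ 2 + 1650 * 86 + 1750) := by constructor <;> norm_num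
    obtain ⟨c, h1, h2⟩ := this h0
    exact ⟨c, h1, h2⟩
  obtain ⟨ha1, ha2⟩ := ha
  obtain ⟨hb1, hb2⟩ := hb
  obtain ⟨hc1, hc2⟩ := hc1
  have hab : a - b ≠ 0 := by intro h; linarith
  have hac : a - c ≠ 0 := by intro h; linarith
  have hbc : b - c ≠ 0 := by intro h; linarith
  have e1 : a ^ 2 + a * b + b ^ 2 - 105 * (a + b) + 1650 = 0 := by
    apply mul_left_cancel₀ hab; linear_combination ha' - hb'
  have e2 : a ^ 2 + a * c + c ^ 2 - 105 * (a + c) + 1650 = 0 := by
    apply mul_left_cancel₀ hac; linear_combination ha' - hc'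
  have e3 : a + b + c = 105 := by
    have : (b - c) * (a + b + c - 105) = 0 := by linear_combination e1 - e2
    rcases mul_eq_zero.mp this with h | h
    · exact absurd h hbc
    · linarith
  have e4 : a * b + a * c + b * c = 1650 := by
    have : c = 105 - a - b := by linarith
    subst this
    linear_combination -e1
  refine ⟨a, b, c, ha1, ha2, hb1, hb2, hc1, e3, e4, ?_⟩
  have : b + c = 105 - a := by linarith
  linear_combination ha' - a ^ 2 * e3 + a * e4

theorem smallEigenvalues_eq (M : Matrix (Fin 3) (Fin 3) ℤ)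
    (hM : M = !![38, 14, 42; 18, 35, 42; 23, 19, 32]) : smallEigenvalues M = 1 := by
  obtain ⟨a, b, c, ha1, ha2, hb1, hb2, hc1, h2, h1, h0⟩ := exists_roots
  unfold smallEigenvalues
  rw [charpoly_three M hM, cubic_roots a b c h2 h1 h0, Polynomial.roots_multiset_prod_X_sub_C]
  have na : ‖(a : ℂ)‖ < 1 := by
    rw [Complex.norm_real, Real.norm_eq_abs, abs_lt]; constructor <;> linarith
  have nb : ¬ ‖(b : ℂ)‖ < 1 := by
    rw [Complex.norm_real, Real.norm_eq_abs, abs_of_pos (by linarith)]; linarith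
  have nc : ¬ ‖(c : ℂ)‖ < 1 := by
    rw [Complex.norm_real, Real.norm_eq_abs, abs_of_pos (by linarith)]; linarith
  simp only [Multiset.insert_eq_cons, Multiset.countP_cons, na, nb, if_true, if_false]
  rw [← Multiset.cons_zero, Multiset.countP_cons, if_neg nc]
  simp

/-- The morphism: `0 ↦ g0`, `1 ↦ g1`, `2 ↦ g2`. -/
def g : Fin 3 → List (Fin 3) := ![g0, g1, g2]

theorem incidence_g : incidence g = !![38, 14, 42; 18, 35, 42; 23, 19, 32] := by
  have h : ∀ i j : Fin 3, ((g j).count i : ℤ) =
      (![![38, 14, 42], ![18, 35, 42], ![23, 19, 32]] : Fin 3 → Fin 3 → ℤ) i j := by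
    decide +kernel
  exact Matrix.ext h

/-- Weights of the letters for the linear map to `ℤ / 1750`. -/
def wt : Fin 3 → ℕ := ![1287, 1350, 1078]

def wsum (l : List (Fin 3)) : ℕ := (l.map wt).sum

def cls (l : List (Fin 3)) : ℕ := wsum l % 1750

def cnt (l : List (Fin 3)) : ℕ × ℕ × ℕ := (l.count 0, l.count 1, l.count 2)

def look (c : ℕ) : Bool × (ℕ × ℕ × ℕ) := (table.lookup c).getD (true, (0, 0, 0))

theorem wsum_g : ∀ y, wsum (g y) % 1750 = 0 := by decide +kernel

theorem mem_mask : ∀ y : Fin 3, ∀ r < (g y).length, mask.testBit (cls ((g y).take r)) = true := by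
  decide +kernel

theorem look_spec : ∀ y : Fin 3, ∀ r < (g y).length,
    look (cls ((g y).take r)) = (true, cnt ((g y).take r)) ∨
    look (cls ((g y).take r)) = (false, cnt ((g y).drop r)) := by
  decide +kernel

theorem mem_classes : ∀ n < 1750, mask.testBit n = true → n ∈ classes := by
  decide +kernel

theorem ap_free_classes : ∀ a ∈ classes, ∀ b ∈ classes,
    mask.testBit ((2 * b + 1750 - a) % 1750) = true →
    mask.testBit ((3 * b + 3500 - 2 * a) % 1750) = true → a = b := by
  decide +kernel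

theorem g_pos : ∀ y, 0 < (g y).length := by decide +kernel

theorem g_two : ∀ y, 2 ≤ (g y).length := by decide +kernel

section FixedPoint

/-- The iterates `g^n(0)`. -/
def iter : ℕ → List (Fin 3)
  | 0 => [0]
  | n + 1 => image g (iter n)

theorem image_append (u v : List (Fin 3)) : image g (u ++ v) = image g u ++ image g v := by
  simp [image]

theorem iter_prefix (n : ℕ) : iter n <+: iter (n + 1) := by
  induction n with
  | zero => exact ⟨(g 0).tail, by decide +kernel⟩
  | succ n ih =>
    obtain ⟨t, ht⟩ := ih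
    refine ⟨image g t, ?_⟩
    show image g (iter n) ++ image g t = image g (iter (n + 1))
    rw [← image_append, ht]

theorem iter_prefix_le {m n : ℕ} (h : m ≤ n) : iter m <+: iter n := by
  induction h with
  | refl => exact List.prefix_refl _
  | step _ ih => exact ih.trans (iter_prefix _)

theorem length_image (u : List (Fin 3)) : 2 * u.length ≤ (image g u).length := by
  induction u with
  | nil => simp [image]
  | cons a u ih =>
    have h1 : image g (a :: u) = g a ++ image g u := by simp [image]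
    have h2 := g_two a
    rw [h1, List.length_append, List.length_cons]
    omega

theorem lt_length_iter (n : ℕ) : n < (iter n).length := by
  induction n with
  | zero => decide
  | succ n ih =>
    have := length_image (iter n)
    show n + 1 < (image g (iter n)).length
    omega

/-- The fixed point of `g` starting with `0`. -/
def w (n : ℕ) : Fin 3 := (iter n).getD n 0

theorem getD_iter {n m : ℕ} (h : n < (iter m).length) : (iter m).getD n 0 = w n := by
  unfold w
  have key : ∀ {a b : ℕ}, a ≤ b → n < (iter a).length → (iter b).getD n 0 = (iter a).getD n 0 := by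
    intro a b hab ha
    obtain ⟨t, ht⟩ := iter_prefix_le hab
    rw [← ht, List.getD_append _ _ _ _ ha]
  rcases le_total n m with hnm | hnm
  · exact key hnm (lt_length_iter n)
  · exact (key hnm h).symm

theorem factor_eq_take {n m : ℕ} (h : n ≤ (iter m).length) : factor w 0 n = (iter m).take n := by
  apply List.ext_getElem
  · simp [factor, h]
  · intro i h1 h2
    have hi : i < n := by simpa [factor] using h1
    have him : i < (iter m).length := lt_of_lt_of_le hi h
    have := getD_iter him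
    simp [factor, List.getElem_take]
    rw [← this, List.getD_eq_getElem _ _ him]

theorem isFixedPoint : IsFixedPoint g w := by
  constructor
  · intro n
    have h1 : factor w 0 n = (iter n).take n := factor_eq_take (lt_length_iter n).le
    have h2 : image g ((iter n).take n) <+: iter (n + 1) := by
      refine ⟨image g ((iter n).drop n), ?_⟩
      rw [← image_append, List.take_append_drop]
      rfl
    rw [h1, factor_eq_take h2.length_le]
    exact (List.prefix_iff_eq_take.mp h2)
  · intro m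
    refine ⟨m, ?_⟩
    have := length_image (factor w 0 m)
    have hl : (factor w 0 m).length = m := by simp [factor]
    omega

end FixedPoint

section CubeFree

theorem length_eq_count (l : List (Fin 3)) : l.length = l.count 0 + l.count 1 + l.count 2 := by
  induction l with
  | nil => simp
  | cons a l ih =>
    fin_cases a <;> simp [List.count_cons, ih] <;> omega

theorem wsum_eq (l : List (Fin 3)) :
    wsum l = 1287 * l.count 0 + 1350 * l.count 1 + 1078 * l.count 2 := by
  induction l with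
  | nil => simp [wsum]
  | cons a l ih =>
    have h : wsum (a :: l) = wt a + wsum l := by simp [wsum]
    rw [h, ih]
    fin_cases a <;> simp [List.count_cons, wt] <;> omega

theorem count_g : ∀ y : Fin 3, ∀ x : Fin 3,
    (g y).count x = (![![38, 14, 42], ![18, 35, 42], ![23, 19, 32]] : Fin 3 → Fin 3 → ℕ) x y := by
  decide +kernel

theorem count_image (l : List (Fin 3)) :
    (image g l).count 0 = 38 * l.count 0 + 14 * l.count 1 + 42 * l.count 2 ∧
    (image g l).count 1 = 18 * l.count 0 + 35 * l.count 1 + 42 * l.count 2 ∧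
    (image g l).count 2 = 23 * l.count 0 + 19 * l.count 1 + 32 * l.count 2 := by
  induction l with
  | nil => simp [image]
  | cons a l ih =>
    obtain ⟨h0, h1, h2⟩ := ih
    have h : image g (a :: l) = g a ++ image g l := by simp [image]
    rw [h, List.count_append, List.count_append, List.count_append, count_g, count_g, count_g,
      h0, h1, h2]
    fin_cases a <;> simp [List.count_cons] <;> omega

theorem wsum_append (u v : List (Fin 3)) : wsum (u ++ v) = wsum u + wsum v := by
  simp [wsum]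

theorem wsum_image (l : List (Fin 3)) : wsum (image g l) % 1750 = 0 := by
  induction l with
  | nil => simp [image, wsum]
  | cons a l ih =>
    have h : image g (a :: l) = g a ++ image g l := by simp [image]
    have := wsum_g a
    rw [h, wsum_append]
    omega

/-- The prefix of length `n` of the fixed point. -/
def pre (n : ℕ) : List (Fin 3) := factor w 0 n

theorem length_pre (n : ℕ) : (pre n).length = n := by simp [pre, factor]

theorem pre_succ (n : ℕ) : pre (n + 1) = pre n ++ [w n] := by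
  simp [pre, factor, List.range_succ]

theorem pre_add (i l : ℕ) : pre (i + l) = pre i ++ factor w i l := by
  simp [pre, factor, List.range_add, Function.comp_def]

theorem image_pre (n : ℕ) : image g (pre n) = pre (image g (pre n)).length := isFixedPoint.1 n

/-- The length of the image of the prefix of length `n`. -/
def len (n : ℕ) : ℕ := (image g (pre n)).length

theorem image_pre' (n : ℕ) : image g (pre n) = pre (len n) := image_pre n

theorem len_zero : len 0 = 0 := by simp [len, pre, factor, image]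

theorem image_pre_succ (n : ℕ) : image g (pre (n + 1)) = image g (pre n) ++ g (w n) := by
  rw [pre_succ, image_append]
  simp [image]

theorem len_succ (n : ℕ) : len (n + 1) = len n + (g (w n)).length := by
  unfold len
  rw [image_pre_succ, List.length_append]

theorem exists_decomp (p : ℕ) : ∃ u r, r < (g (w u)).length ∧ p = len u + r := by
  induction p with
  | zero => exact ⟨0, 0, g_pos _, by simp [len_zero]⟩
  | succ p ih =>
    obtain ⟨u, r, hr, hp⟩ := ih
    by_cases h : r + 1 < (g (w u)).length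
    · exact ⟨u, r + 1, h, by omega⟩
    · refine ⟨u + 1, 0, g_pos _, ?_⟩
      rw [len_succ]
      omega

theorem pre_take {m n : ℕ} (h : m ≤ n) : (pre n).take m = pre m := by
  obtain ⟨k, rfl⟩ := Nat.exists_eq_add_of_le h
  rw [pre_add, List.take_append_of_le_length (by rw [length_pre])]
  rw [List.take_of_length_le (by rw [length_pre])]

theorem pre_decomp {u r : ℕ} (hr : r < (g (w u)).length) :
    pre (len u + r) = image g (pre u) ++ (g (w u)).take r := by
  have h1 : pre (len (u + 1)) = image g (pre u) ++ g (w u) := by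
    rw [← image_pre', image_pre_succ]
  have h2 : len u + r ≤ len (u + 1) := by rw [len_succ]; omega
  rw [← pre_take h2, h1]
  have h3 : (image g (pre u)).length = len u := rfl
  rw [List.take_append, List.take_of_length_le (by omega), h3]
  congr 2
  omega

theorem pre_decomp' {u r : ℕ} (hr : r < (g (w u)).length) :
    pre (len u + r) ++ (g (w u)).drop r = image g (pre (u + 1)) := by
  rw [pre_decomp hr, image_pre_succ, List.append_assoc, List.take_append_drop]

/-- The number of occurrences of the letter `x` in the prefix of length `n`. -/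
def c (n : ℕ) (x : Fin 3) : ℕ := (pre n).count x

theorem c_mono {m n : ℕ} (h : m ≤ n) (x : Fin 3) : c m x ≤ c n x := by
  obtain ⟨k, rfl⟩ := Nat.exists_eq_add_of_le h
  unfold c
  rw [pre_add, List.count_append]
  omega

theorem c_sum (n : ℕ) : c n 0 + c n 1 + c n 2 = n := by
  unfold c
  rw [← length_eq_count, length_pre]

/-- Four positions in arithmetic progression whose Parikh vectors are in arithmetic progression. -/
def Prog (p0 p1 p2 p3 : ℕ) : Prop :=
  ∀ x, c p0 x + c p2 x = 2 * c p1 x ∧ c p1 x + c p3 x = 2 * c p2 x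

theorem inj3 (x y z : ℤ) (h0 : 38 * x + 14 * y + 42 * z = 0) (h1 : 18 * x + 35 * y + 42 * z = 0)
    (h2 : 23 * x + 19 * y + 32 * z = 0) : x = 0 ∧ y = 0 ∧ z = 0 := by
  omega

theorem second_difference {p0 p1 p2 u0 u1 u2 : ℕ} (v0 v1 v2 : ℤ)
    (e : ∀ x, c p0 x + c p2 x = 2 * c p1 x)
    (h : ∀ pu ∈ [(p0, u0), (p1, u1), (p2, u2)],
      (c pu.1 0 : ℤ) = 38 * c pu.2 0 + 14 * c pu.2 1 + 42 * c pu.2 2 + v0 ∧
      (c pu.1 1 : ℤ) = 18 * c pu.2 0 + 35 * c pu.2 1 + 42 * c pu.2 2 + v1 ∧
      (c pu.1 2 : ℤ) = 23 * c pu.2 0 + 19 * c pu.2 1 + 32 * c pu.2 2 + v2) (x : Fin 3) :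
    c u0 x + c u2 x = 2 * c u1 x := by
  obtain ⟨a00, a01, a02⟩ := h (p0, u0) (by simp)
  obtain ⟨a10, a11, a12⟩ := h (p1, u1) (by simp)
  obtain ⟨a20, a21, a22⟩ := h (p2, u2) (by simp)
  have e0 : (c p0 0 : ℤ) + c p2 0 = 2 * c p1 0 := by exact_mod_cast e 0
  have e1 : (c p0 1 : ℤ) + c p2 1 = 2 * c p1 1 := by exact_mod_cast e 1
  have e2 : (c p0 2 : ℤ) + c p2 2 = 2 * c p1 2 := by exact_mod_cast e 2
  dsimp only at a00 a01 a02 a10 a11 a12 a20 a21 a22
  obtain ⟨k0, k1, k2⟩ := inj3 ((c u0 0 : ℤ) + c u2 0 - 2 * c u1 0)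
    ((c u0 1 : ℤ) + c u2 1 - 2 * c u1 1) ((c u0 2 : ℤ) + c u2 2 - 2 * c u1 2)
    (by linarith) (by linarith) (by linarith)
  have k : ∀ x : Fin 3, (c u0 x : ℤ) + c u2 x - 2 * c u1 x = 0 := by
    intro x
    fin_cases x
    · exact k0
    · exact k1
    · exact k2
  have := k x
  omega

theorem prog_descend {p0 p1 p2 p3 u0 u1 u2 u3 : ℕ} (hp : Prog p0 p1 p2 p3) (hlt : p0 < p1)
    (v0 v1 v2 : ℤ)
    (h : ∀ pu ∈ [(p0, u0), (p1, u1), (p2, u2), (p3, u3)],
      (c pu.1 0 : ℤ) = 38 * c pu.2 0 + 14 * c pu.2 1 + 42 * c pu.2 2 + v0 ∧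
      (c pu.1 1 : ℤ) = 18 * c pu.2 0 + 35 * c pu.2 1 + 42 * c pu.2 2 + v1 ∧
      (c pu.1 2 : ℤ) = 23 * c pu.2 0 + 19 * c pu.2 1 + 32 * c pu.2 2 + v2) :
    Prog u0 u1 u2 u3 ∧ u0 < u1 ∧ u1 - u0 < p1 - p0 := by
  have hprog : Prog u0 u1 u2 u3 := by
    intro x
    constructor
    · exact second_difference v0 v1 v2 (fun x => (hp x).1)
        (fun pu hpu => h pu (by simp at hpu ⊢; tauto)) x
    · exact second_difference v0 v1 v2 (fun x => (hp x).2)
        (fun pu hpu => h pu (by simp at hpu ⊢; tauto)) x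
  obtain ⟨a00, a01, a02⟩ := h (p0, u0) (by simp)
  obtain ⟨a10, a11, a12⟩ := h (p1, u1) (by simp)
  dsimp only at a00 a01 a02 a10 a11 a12
  have sp0 : (c p0 0 : ℤ) + c p0 1 + c p0 2 = p0 := by exact_mod_cast c_sum p0
  have sp1 : (c p1 0 : ℤ) + c p1 1 + c p1 2 = p1 := by exact_mod_cast c_sum p1
  have su0 : (c u0 0 : ℤ) + c u0 1 + c u0 2 = u0 := by exact_mod_cast c_sum u0
  have su1 : (c u1 0 : ℤ) + c u1 1 + c u1 2 = u1 := by exact_mod_cast c_sum u1
  have hlt' : (p0 : ℤ) < p1 := by exact_mod_cast hlt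
  have hu : u0 < u1 := by
    by_contra hcon
    have m0 : (c u1 0 : ℤ) ≤ c u0 0 := by exact_mod_cast c_mono (not_lt.mp hcon) 0
    have m1 : (c u1 1 : ℤ) ≤ c u0 1 := by exact_mod_cast c_mono (not_lt.mp hcon) 1
    have m2 : (c u1 2 : ℤ) ≤ c u0 2 := by exact_mod_cast c_mono (not_lt.mp hcon) 2
    linarith
  refine ⟨hprog, hu, ?_⟩
  have m0 : (c u0 0 : ℤ) ≤ c u1 0 := by exact_mod_cast c_mono hu.le 0
  have m1 : (c u0 1 : ℤ) ≤ c u1 1 := by exact_mod_cast c_mono hu.le 1
  have m2 : (c u0 2 : ℤ) ≤ c u1 2 := by exact_mod_cast c_mono hu.le 2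
  have hu' : (u0 : ℤ) < u1 := by exact_mod_cast hu
  have : (u1 : ℤ) - u0 < p1 - p0 := by linarith
  omega

theorem c_decomp {p u r : ℕ} (hr : r < (g (w u)).length) (hp : p = len u + r) (x : Fin 3) :
    c p x = (image g (pre u)).count x + ((g (w u)).take r).count x := by
  subst hp
  unfold c
  rw [pre_decomp hr, List.count_append]

theorem c_decomp' {p u r : ℕ} (hr : r < (g (w u)).length) (hp : p = len u + r) (x : Fin 3) :
    c p x + ((g (w u)).drop r).count x = (image g (pre (u + 1))).count x := by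
  subst hp
  unfold c
  rw [← pre_decomp' hr, List.count_append]

theorem wsum_decomp {p u r : ℕ} (hr : r < (g (w u)).length) (hp : p = len u + r) :
    wsum (pre p) % 1750 = cls ((g (w u)).take r) := by
  subst hp
  have := wsum_image (pre u)
  rw [pre_decomp hr, wsum_append, cls]
  omega

theorem classes_equal {p0 p1 p2 p3 u0 u1 u2 u3 r0 r1 r2 r3 : ℕ} (hp : Prog p0 p1 p2 p3)
    (hr0 : r0 < (g (w u0)).length) (hp0 : p0 = len u0 + r0)
    (hr1 : r1 < (g (w u1)).length) (hp1 : p1 = len u1 + r1)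
    (hr2 : r2 < (g (w u2)).length) (hp2 : p2 = len u2 + r2)
    (hr3 : r3 < (g (w u3)).length) (hp3 : p3 = len u3 + r3) :
    cls ((g (w u1)).take r1) = cls ((g (w u0)).take r0) ∧
    cls ((g (w u2)).take r2) = cls ((g (w u0)).take r0) ∧
    cls ((g (w u3)).take r3) = cls ((g (w u0)).take r0) := by
  have s0 := wsum_decomp hr0 hp0
  have s1 := wsum_decomp hr1 hp1
  have s2 := wsum_decomp hr2 hp2
  have s3 := wsum_decomp hr3 hp3
  have ws : ∀ p, wsum (pre p) = 1287 * c p 0 + 1350 * c p 1 + 1078 * c p 2 := fun p => wsum_eq _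
  have q0 : wsum (pre p0) + wsum (pre p2) = 2 * wsum (pre p1) := by
    rw [ws, ws, ws]
    have e0 := (hp 0).1
    have e1 := (hp 1).1
    have e2 := (hp 2).1
    clear s0 s1 s2 s3
    omega
  have q1 : wsum (pre p1) + wsum (pre p3) = 2 * wsum (pre p2) := by
    rw [ws, ws, ws]
    have e0 := (hp 0).2
    have e1 := (hp 1).2
    have e2 := (hp 2).2
    clear s0 s1 s2 s3
    omega
  clear ws
  have m0 := mem_mask (w u0) r0 hr0
  have m1 := mem_mask (w u1) r1 hr1
  have m2 := mem_mask (w u2) r2 hr2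
  have m3 := mem_mask (w u3) r3 hr3
  have b0 : cls ((g (w u0)).take r0) < 1750 := Nat.mod_lt _ (by norm_num)
  have b1 : cls ((g (w u1)).take r1) < 1750 := Nat.mod_lt _ (by norm_num)
  have b2 : cls ((g (w u2)).take r2) < 1750 := Nat.mod_lt _ (by norm_num)
  have b3 : cls ((g (w u3)).take r3) < 1750 := Nat.mod_lt _ (by norm_num)
  clear hr0 hr1 hr2 hr3 hp0 hp1 hp2 hp3 hp
  revert s0 s1 s2 s3 q0 q1 m0 m1 m2 m3 b0 b1 b2 b3
  generalize cls ((g (w u0)).take r0) = a0
  generalize cls ((g (w u1)).take r1) = a1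
  generalize cls ((g (w u2)).take r2) = a2
  generalize cls ((g (w u3)).take r3) = a3
  generalize wsum (pre p0) = z0
  generalize wsum (pre p1) = z1
  generalize wsum (pre p2) = z2
  generalize wsum (pre p3) = z3
  intro s0 s1 s2 s3 q0 q1 m0 m1 m2 m3 b0 b1 b2 b3
  have t2 : (2 * a1 + 1750 - a0) % 1750 = a2 := by omega
  have t3 : (3 * a1 + 3500 - 2 * a0) % 1750 = a3 := by omega
  have hab : a0 = a1 := ap_free_classes a0 (mem_classes a0 b0 m0) a1 (mem_classes a1 b1 m1)
    (by rw [t2]; exact m2) (by rw [t3]; exact m3)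
  omega

theorem no_prog : ∀ d p0 p1 p2 p3, p1 - p0 = d → p0 < p1 → ¬ Prog p0 p1 p2 p3 := by
  intro d
  induction d using Nat.strong_induction_on with
  | _ d ih =>
    intro p0 p1 p2 p3 hd hlt hp
    obtain ⟨u0, r0, hr0, hp0⟩ := exists_decomp p0
    obtain ⟨u1, r1, hr1, hp1⟩ := exists_decomp p1
    obtain ⟨u2, r2, hr2, hp2⟩ := exists_decomp p2
    obtain ⟨u3, r3, hr3, hp3⟩ := exists_decomp p3
    obtain ⟨c1, c2, c3⟩ := classes_equal hp hr0 hp0 hr1 hp1 hr2 hp2 hr3 hp3
    have l0 := look_spec (w u0) r0 hr0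
    have l1 := look_spec (w u1) r1 hr1
    have l2 := look_spec (w u2) r2 hr2
    have l3 := look_spec (w u3) r3 hr3
    rw [c1] at l1
    rw [c2] at l2
    rw [c3] at l3
    revert l0 l1 l2 l3
    generalize look (cls ((g (w u0)).take r0)) = L
    obtain ⟨b, v0, v1, v2⟩ := L
    intro l0 l1 l2 l3
    cases b with
    | true =>
      have f : ∀ {p u r : ℕ}, r < (g (w u)).length → p = len u + r →
          ((true, (v0, v1, v2)) = (true, cnt ((g (w u)).take r)) ∨
            (true, (v0, v1, v2)) = (false, cnt ((g (w u)).drop r))) →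
          (c p 0 : ℤ) = 38 * c u 0 + 14 * c u 1 + 42 * c u 2 + (v0 : ℤ) ∧
          (c p 1 : ℤ) = 18 * c u 0 + 35 * c u 1 + 42 * c u 2 + (v1 : ℤ) ∧
          (c p 2 : ℤ) = 23 * c u 0 + 19 * c u 1 + 32 * c u 2 + (v2 : ℤ) := by
        intro p u r hr hp l
        have d0 := c_decomp hr hp 0
        have d1 := c_decomp hr hp 1
        have d2 := c_decomp hr hp 2
        obtain ⟨i0, i1, i2⟩ := count_image (pre u)
        simp only [Prod.mk.injEq, cnt] at l
        rcases l with ⟨_, k0, k1, k2⟩ | ⟨hf, _⟩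
        · rw [i0, ← k0] at d0
          rw [i1, ← k1] at d1
          rw [i2, ← k2] at d2
          unfold c at *
          refine ⟨?_, ?_, ?_⟩ <;> push_cast [d0, d1, d2] <;> ring
        · exact absurd hf (by decide)
      obtain ⟨g1, g2, g3⟩ := prog_descend hp hlt v0 v1 v2 (u0 := u0) (u1 := u1) (u2 := u2) (u3 := u3)
        (by
          intro pu hpu
          simp only [List.mem_cons, List.not_mem_nil, or_false] at hpu
          rcases hpu with rfl | rfl | rfl | rfl
          · exact f hr0 hp0 l0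
          · exact f hr1 hp1 l1
          · exact f hr2 hp2 l2
          · exact f hr3 hp3 l3)
      exact ih (u1 - u0) (by omega) u0 u1 u2 u3 rfl g2 g1
    | false =>
      have f : ∀ {p u r : ℕ}, r < (g (w u)).length → p = len u + r →
          ((false, (v0, v1, v2)) = (true, cnt ((g (w u)).take r)) ∨
            (false, (v0, v1, v2)) = (false, cnt ((g (w u)).drop r))) →
          (c p 0 : ℤ) = 38 * c (u + 1) 0 + 14 * c (u + 1) 1 + 42 * c (u + 1) 2 + (-v0 : ℤ) ∧
          (c p 1 : ℤ) = 18 * c (u + 1) 0 + 35 * c (u + 1) 1 + 42 * c (u + 1) 2 + (-v1 : ℤ) ∧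
          (c p 2 : ℤ) = 23 * c (u + 1) 0 + 19 * c (u + 1) 1 + 32 * c (u + 1) 2 + (-v2 : ℤ) := by
        intro p u r hr hp l
        have d0 := c_decomp' hr hp 0
        have d1 := c_decomp' hr hp 1
        have d2 := c_decomp' hr hp 2
        obtain ⟨i0, i1, i2⟩ := count_image (pre (u + 1))
        simp only [Prod.mk.injEq, cnt] at l
        rcases l with ⟨hf, _⟩ | ⟨_, k0, k1, k2⟩
        · exact absurd hf (by decide)
        · rw [i0, ← k0] at d0
          rw [i1, ← k1] at d1
          rw [i2, ← k2] at d2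
          unfold c at *
          refine ⟨?_, ?_, ?_⟩ <;> omega
      obtain ⟨g1, g2, g3⟩ := prog_descend hp hlt (-v0) (-v1) (-v2)
        (u0 := u0 + 1) (u1 := u1 + 1) (u2 := u2 + 1) (u3 := u3 + 1)
        (by
          intro pu hpu
          simp only [List.mem_cons, List.not_mem_nil, or_false] at hpu
          rcases hpu with rfl | rfl | rfl | rfl
          · exact f hr0 hp0 l0
          · exact f hr1 hp1 l1
          · exact f hr2 hp2 l2
          · exact f hr3 hp3 l3)
      exact ih (u1 + 1 - (u0 + 1)) (by omega) (u0 + 1) (u1 + 1) (u2 + 1) (u3 + 1) rfl g2 g1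

theorem c_factor (i l : ℕ) (x : Fin 3) : c (i + l) x = c i x + (factor w i l).count x := by
  unfold c
  rw [pre_add, List.count_append]

theorem abelianCubeFree : AbelianCubeFree w := by
  rintro i a b d ⟨hu, hv, ht, h⟩
  have la : (factor w i a).length = a := by simp [factor]
  have hpos : 0 < a := by
    rcases Nat.eq_zero_or_pos a with h0 | h0
    · rw [h0] at la
      exact absurd (List.eq_nil_of_length_eq_zero (by rw [h0]; exact la)) hu
    · exact h0
  refine no_prog a i (i + a) (i + a + b) (i + a + b + d) (by omega) (by omega) ?_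
  intro x
  obtain ⟨h1, h2⟩ := h x
  have e1 := c_factor i a x
  have e2 := c_factor (i + a) b x
  have e3 := c_factor (i + a + b) d x
  constructor <;> omega

end CubeFree

theorem incidence_pos : ∀ x y, 0 < incidence g x y := by
  rw [incidence_g]
  intro x y
  fin_cases x <;> fin_cases y <;> decide

theorem incidence_det : (incidence g).det ≠ 0 := by
  rw [incidence_g, Matrix.det_fin_three]
  decide

/-- There is a morphism of the free monoid on three letters whose matrix has positive entries,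
nonzero determinant and exactly one eigenvalue of modulus smaller than one, and which has an
abelian-cube-free fixed point. -/
theorem result : ∃ h : Fin 3 → List (Fin 3),
    (∀ x y, 0 < incidence h x y) ∧ (incidence h).det ≠ 0 ∧
    smallEigenvalues (incidence h) = 1 ∧
      ∃ w : ℕ → Fin 3, IsFixedPoint h w ∧ AbelianCubeFree w :=
  ⟨g, incidence_pos, incidence_det, smallEigenvalues_eq _ incidence_g, w, isFixedPoint,
    abelianCubeFree⟩

end Pool.Agent.Results.MP_afd3e6_co.ContractingFixedPoint
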